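import Pool.Agent.Helper88.QT.St2
import Pool.Agent.Helper85.QT.St1

/-! # Project QT: elements which do not share a fixed point with `α` -/

set_option autoImplicit false

open MeasureTheory Matrix Set Topology
open scoped ENNReal ComplexConjugate

namespace Pool.Agent.Helper33.QT

open Pool.Agent.Helper88.QT Pool.Agent.Helper85.QT Pool.Agent.Helper86.QA
open Pool.Agent.Helper35.PM (hs)

variable {Γ : Type} [Group Γ]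

theorem hs_eq (X : Mat) : hs X = ‖X 0 0‖ ^ 2 + ‖X 0 1‖ ^ 2 + (‖X 1 0‖ ^ 2 + ‖X 1 1‖ ^ 2) := by
  simp only [hs, Fin.sum_univ_two]

theorem mul_ent (g h : SL) : (g * h) 0 0 = g 0 0 * h 0 0 + g 0 1 * h 1 0 ∧
    (g * h) 0 1 = g 0 0 * h 0 1 + g 0 1 * h 1 1 ∧
    (g * h) 1 0 = g 1 0 * h 0 0 + g 1 1 * h 1 0 ∧
    (g * h) 1 1 = g 1 0 * h 0 1 + g 1 1 * h 1 1 := by
  refine ⟨?_, ?_, ?_, ?_⟩ <;>
    rw [Matrix.SpecialLinearGroup.coe_mul, Matrix.mul_apply, Fin.sum_univ_two]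

theorem det_ent (g : SL) : g 0 0 * g 1 1 - g 0 1 * g 1 0 = 1 := by
  have h := g.det_coe
  rwa [Matrix.det_fin_two] at h

theorem inv_ent (g : SL) : g⁻¹ 0 0 = g 1 1 ∧ g⁻¹ 0 1 = -g 0 1 ∧ g⁻¹ 1 0 = -g 1 0 ∧
    g⁻¹ 1 1 = g 0 0 := by
  rw [Matrix.SpecialLinearGroup.SL2_inv_expl]
  simp

theorem pow_ent (ρ : Γ →* SL) (α : Γ) (h01 : (ρ α) 0 1 = 0) (h10 : (ρ α) 1 0 = 0) (n : ℕ) :
    (ρ (α ^ n)) 0 0 = (ρ α) 0 0 ^ n ∧ (ρ (α ^ n)) 0 1 = 0 ∧ (ρ (α ^ n)) 1 0 = 0 ∧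
      (ρ (α ^ n)) 1 1 = (ρ α) 1 1 ^ n := by
  induction n with
  | zero => simp
  | succ n ih =>
    obtain ⟨e1, e2, e3, e4⟩ := ih
    obtain ⟨f1, f2, f3, f4⟩ := mul_ent (ρ (α ^ n)) (ρ α)
    rw [pow_succ, map_mul, f1, f2, f3, f4, e1, e2, e3, e4, h01, h10]
    refine ⟨?_, ?_, ?_, ?_⟩ <;> ring

theorem eig (ρ : Γ →* SL) (α : Γ) (lam : ℂ) (hre : 0 < lam.re) (h01 : (ρ α) 0 1 = 0)
    (hmu : (ρ α) 0 0 = Complex.exp lam * (ρ α) 1 1) :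
    (ρ α) 0 0 * (ρ α) 1 1 = 1 ∧ 0 < ‖(ρ α) 1 1‖ ∧ ‖(ρ α) 1 1‖ < 1 := by
  have hd := det_ent (ρ α)
  rw [h01, zero_mul, sub_zero] at hd
  have h0 : (ρ α) 1 1 ≠ 0 := right_ne_zero_of_mul (hd.symm ▸ one_ne_zero)
  have h1 : 0 < ‖(ρ α) 1 1‖ := norm_pos_iff.2 h0
  refine ⟨hd, h1, ?_⟩
  by_contra hcon
  push Not at hcon
  have h2 : ‖(ρ α) 0 0‖ * ‖(ρ α) 1 1‖ = 1 := by rw [← norm_mul, hd, norm_one]
  rw [hmu, norm_mul, Complex.norm_exp] at h2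
  have h3 : 1 < Real.exp lam.re := Real.one_lt_exp_iff.2 hre
  nlinarith [mul_le_mul hcon hcon zero_le_one h1.le]

omit [Group Γ] in
theorem no_rep {F : ℕ → Γ} {S : Set Γ} (hS : S.Finite) (hF : ∀ n, F n ∈ S) :
    ∃ n m : ℕ, n < m ∧ F n = F m := by
  have : Finite S := hS
  obtain ⟨n, m, hne, h⟩ := Finite.exists_ne_map_eq_of_infinite (fun n : ℕ => (⟨F n, hF n⟩ : S))
  have h' : F n = F m := congrArg Subtype.val h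
  rcases lt_or_gt_of_ne hne with hlt | hlt
  · exact ⟨n, m, hlt, h'⟩
  · exact ⟨m, n, hlt, h'.symm⟩

theorem pow_nr {q v : ℂ} (hv : 0 < ‖v‖) (hv1 : ‖v‖ < 1) {n m : ℕ} (hnm : n < m)
    (h : q * v ^ (2 * n) = q * v ^ (2 * m)) : q = 0 := by
  by_contra hq
  have h1 := mul_left_cancel₀ hq h
  have h2 : ‖v‖ ^ (2 * n) = ‖v‖ ^ (2 * m) := by rw [← norm_pow, ← norm_pow, h1]
  have h3 := pow_lt_pow_right_of_lt_one₀ hv hv1 (show 2 * n < 2 * m by omega)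
  linarith

/-- elements fixing `∞` -/
theorem diag10 {ρ : Γ →* SL} {A B : Set ℂ} {α : Γ} {lam : ℂ} {M : ℝ} {G : ℂ → ℂ} {m : ℝ}
    {φ : ℂ → ℂ} {C3 : ℝ} (hA : Ann ρ A B α lam M G m φ C3) (γ : Γ) (h : (ρ γ) 1 0 = 0) :
    ∃ n : ℤ, γ = α ^ n := by
  obtain ⟨hd, hv, hv1⟩ := eig ρ α lam hA.re hA.dg.1 hA.mu
  have key : ∀ n : ℕ, (ρ ((α ^ n)⁻¹ * γ * α ^ n)) 0 0 = (ρ γ) 0 0 ∧
      (ρ ((α ^ n)⁻¹ * γ * α ^ n)) 0 1 = (ρ γ) 0 1 * (ρ α) 1 1 ^ (2 * n) ∧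
      (ρ ((α ^ n)⁻¹ * γ * α ^ n)) 1 0 = 0 ∧
      (ρ ((α ^ n)⁻¹ * γ * α ^ n)) 1 1 = (ρ γ) 1 1 := by
    intro n
    obtain ⟨e1, e2, e3, e4⟩ := pow_ent ρ α hA.dg.1 hA.dg.2 n
    obtain ⟨i1, i2, i3, i4⟩ := inv_ent (ρ (α ^ n))
    obtain ⟨f1, f2, f3, f4⟩ := mul_ent (ρ (α ^ n))⁻¹ (ρ γ)
    obtain ⟨g1, g2, g3, g4⟩ := mul_ent ((ρ (α ^ n))⁻¹ * ρ γ) (ρ (α ^ n))
    have hp : (ρ α) 0 0 ^ n * (ρ α) 1 1 ^ n = 1 := by rw [← mul_pow, hd, one_pow]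
    rw [map_mul, map_mul, map_inv, g1, g2, g3, g4, f1, f2, f3, f4, i1, i2, i3, i4, e1, e2, e3,
      e4, h]
    refine ⟨?_, ?_, ?_, ?_⟩
    · linear_combination ((ρ γ) 0 0) * hp
    · ring
    · ring
    · linear_combination ((ρ γ) 1 1) * hp
  obtain ⟨n, n', hlt, heq⟩ := no_rep (hA.kd.disc (hs (ρ γ))) (F := fun n => (α ^ n)⁻¹ * γ * α ^ n)
    (fun n => by
      obtain ⟨k1, k2, k3, k4⟩ := key n
      show hs (ρ ((α ^ n)⁻¹ * γ * α ^ n)) ≤ hs (ρ γ)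
      rw [hs_eq, hs_eq, k1, k2, k3, k4, h, norm_mul, norm_pow]
      have h1 : ‖(ρ α) 1 1‖ ^ (2 * n) ≤ 1 := pow_le_one₀ hv.le hv1.le
      have h2 : ‖(ρ γ) 0 1‖ * ‖(ρ α) 1 1‖ ^ (2 * n) ≤ ‖(ρ γ) 0 1‖ :=
        mul_le_of_le_one_right (norm_nonneg _) h1
      have h3 : (‖(ρ γ) 0 1‖ * ‖(ρ α) 1 1‖ ^ (2 * n)) ^ 2 ≤ ‖(ρ γ) 0 1‖ ^ 2 :=
        pow_le_pow_left₀ (by positivity) h2 2
      linarith)
  have hq : (ρ γ) 0 1 = 0 := by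
    have h1 := (key n).2.1
    have h2 := (key n').2.1
    have h3 : (α ^ n)⁻¹ * γ * α ^ n = (α ^ n')⁻¹ * γ * α ^ n' := heq
    rw [h3] at h1
    exact pow_nr hv hv1 hlt (h1.symm.trans h2)
  exact hA.st γ (Or.inl ⟨hq, h⟩)

/-- elements fixing `0` -/
theorem diag01 {ρ : Γ →* SL} {A B : Set ℂ} {α : Γ} {lam : ℂ} {M : ℝ} {G : ℂ → ℂ} {m : ℝ}
    {φ : ℂ → ℂ} {C3 : ℝ} (hA : Ann ρ A B α lam M G m φ C3) (γ : Γ) (h : (ρ γ) 0 1 = 0) :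
    ∃ n : ℤ, γ = α ^ n := by
  obtain ⟨hd, hv, hv1⟩ := eig ρ α lam hA.re hA.dg.1 hA.mu
  have key : ∀ n : ℕ, (ρ (α ^ n * γ * (α ^ n)⁻¹)) 0 0 = (ρ γ) 0 0 ∧
      (ρ (α ^ n * γ * (α ^ n)⁻¹)) 1 0 = (ρ γ) 1 0 * (ρ α) 1 1 ^ (2 * n) ∧
      (ρ (α ^ n * γ * (α ^ n)⁻¹)) 0 1 = 0 ∧
      (ρ (α ^ n * γ * (α ^ n)⁻¹)) 1 1 = (ρ γ) 1 1 := by
    intro n
    obtain ⟨e1, e2, e3, e4⟩ := pow_ent ρ α hA.dg.1 hA.dg.2 n
    obtain ⟨i1, i2, i3, i4⟩ := inv_ent (ρ (α ^ n))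
    obtain ⟨f1, f2, f3, f4⟩ := mul_ent (ρ (α ^ n)) (ρ γ)
    obtain ⟨g1, g2, g3, g4⟩ := mul_ent (ρ (α ^ n) * ρ γ) (ρ (α ^ n))⁻¹
    have hp : (ρ α) 0 0 ^ n * (ρ α) 1 1 ^ n = 1 := by rw [← mul_pow, hd, one_pow]
    rw [map_mul, map_mul, map_inv, g1, g2, g3, g4, f1, f2, f3, f4, i1, i2, i3, i4, e1, e2, e3,
      e4, h]
    refine ⟨?_, ?_, ?_, ?_⟩
    · linear_combination ((ρ γ) 0 0) * hp
    · ring
    · ring
    · linear_combination ((ρ γ) 1 1) * hp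
  obtain ⟨n, n', hlt, heq⟩ := no_rep (hA.kd.disc (hs (ρ γ))) (F := fun n => α ^ n * γ * (α ^ n)⁻¹)
    (fun n => by
      obtain ⟨k1, k2, k3, k4⟩ := key n
      show hs (ρ (α ^ n * γ * (α ^ n)⁻¹)) ≤ hs (ρ γ)
      rw [hs_eq, hs_eq, k1, k2, k3, k4, h, norm_mul, norm_pow]
      have h1 : ‖(ρ α) 1 1‖ ^ (2 * n) ≤ 1 := pow_le_one₀ hv.le hv1.le
      have h2 : ‖(ρ γ) 1 0‖ * ‖(ρ α) 1 1‖ ^ (2 * n) ≤ ‖(ρ γ) 1 0‖ :=
        mul_le_of_le_one_right (norm_nonneg _) h1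
      have h3 : (‖(ρ γ) 1 0‖ * ‖(ρ α) 1 1‖ ^ (2 * n)) ^ 2 ≤ ‖(ρ γ) 1 0‖ ^ 2 :=
        pow_le_pow_left₀ (by positivity) h2 2
      linarith)
  have hq : (ρ γ) 1 0 = 0 := by
    have h1 := (key n).2.1
    have h2 := (key n').2.1
    have h3 : α ^ n * γ * (α ^ n)⁻¹ = α ^ n' * γ * (α ^ n')⁻¹ := heq
    rw [h3] at h1
    exact pow_nr hv hv1 hlt (h1.symm.trans h2)
  exact hA.st γ (Or.inl ⟨h, hq⟩)

theorem hNOF (hCHV : Pool.Agent.Helper86.QA.StCHV) (hPD2 : Pool.Agent.Helper86.QA.StPD2) :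
    Pool.Agent.Helper88.QT.StNOF := by
  intro Γ _ ρ A B α lam M G m φ C3 hA γ hγ
  have hc10 : ∀ g : Γ, (ρ (g * γ * g⁻¹)) 1 0 ≠ 0 := by
    intro g h
    obtain ⟨n, hn⟩ := diag10 hA _ h
    refine hγ g⁻¹ n ?_
    rw [← hn]; group
  have hc01 : ∀ g : Γ, (ρ (g * γ * g⁻¹)) 0 1 ≠ 0 := by
    intro g h
    obtain ⟨n, hn⟩ := diag01 hA _ h
    refine hγ g⁻¹ n ?_
    rw [← hn]; group
  refine ⟨?_, ?_, ?_⟩
  · intro h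
    obtain ⟨n, hn⟩ := diag10 hA γ h
    exact hγ 1 n (by rw [← hn]; group)
  · intro h
    obtain ⟨n, hn⟩ := diag01 hA γ h
    exact hγ 1 n (by rw [← hn]; group)
  · intro a hden hfix
    have hfix' : (ρ γ) 0 0 * a + (ρ γ) 0 1 = a * ((ρ γ) 1 0 * a + (ρ γ) 1 1) := by
      have h : ((ρ γ) 0 0 * a + (ρ γ) 0 1) / ((ρ γ) 1 0 * a + (ρ γ) 1 1) = a := hfix
      rwa [div_eq_iff hden] at h
    refine ⟨?_, ?_⟩
    · intro g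
      have hHG : ρ (g * γ * g⁻¹) * ρ g = ρ g * ρ γ := by
        rw [← map_mul, ← map_mul]; congr 1; group
      obtain ⟨l1, l2, l3, l4⟩ := mul_ent (ρ (g * γ * g⁻¹)) (ρ g)
      obtain ⟨r1, r2, r3, r4⟩ := mul_ent (ρ g) (ρ γ)
      rw [hHG] at l1 l2 l3 l4
      have hdet := det_ent (ρ g)
      refine ⟨?_, ?_⟩
      · intro hy
        have h1 : (ρ (g * γ * g⁻¹)) 1 0 * ((ρ g) 0 0 * a + (ρ g) 0 1) = 0 := by
          linear_combination (-a) * l3 - l4 + a * r3 + r4 +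
            (ρ g) 1 0 * hfix' + ((ρ γ) 1 0 * a + (ρ γ) 1 1 - (ρ (g * γ * g⁻¹)) 1 1) * hy
        rcases mul_eq_zero.1 h1 with h2 | h2
        · exact hc10 g h2
        · have : (1 : ℂ) = 0 := by
            linear_combination (-1) * hdet - (ρ g) 1 0 * h2 + (ρ g) 0 0 * hy
          exact one_ne_zero this
      · intro hx
        have h1 : (ρ (g * γ * g⁻¹)) 0 1 * ((ρ g) 1 0 * a + (ρ g) 1 1) = 0 := by
          linear_combination (-a) * l1 - l2 + a * r1 + r2 +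
            (ρ g) 0 0 * hfix' + ((ρ γ) 1 0 * a + (ρ γ) 1 1 - (ρ (g * γ * g⁻¹)) 0 0) * hx
        rcases mul_eq_zero.1 h1 with h2 | h2
        · exact hc01 g h2
        · have : (1 : ℂ) = 0 := by
            linear_combination (-1) * hdet - (ρ g) 1 0 * hx + (ρ g) 0 0 * h2
          exact one_ne_zero this
    · intro hmem
      have hpow : ∀ n : ℕ, ab ρ (γ ^ n) a = a := by
        intro n
        induction n with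
        | zero =>
          show mb (ρ (γ ^ 0)) a = a
          rw [pow_zero, map_one]; exact hCHV.2.2.2.1 a
        | succ n ih =>
          show mb (ρ (γ ^ (n + 1))) a = a
          rw [pow_succ, map_mul, (hCHV.2.1 (ρ (γ ^ n)) (ρ γ) a hden).1, hfix]
          exact ih
      have hfin := (hPD2 Γ ρ A B hA.kd {a} {a} 0 0 isCompact_singleton
        (Set.singleton_subset_iff.2 hmem) isCompact_singleton
        (Set.singleton_subset_iff.2 hmem)).2.2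
      obtain ⟨n, n', hlt, heq⟩ := no_rep hfin (F := fun n => γ ^ n)
        (fun n => ⟨a, rfl, hpow n⟩)
      have h1 : γ ^ (n' - n) = 1 := by
        have h2 : γ ^ n * γ ^ (n' - n) = γ ^ n * 1 := by
          rw [← pow_add, mul_one, Nat.add_sub_cancel' hlt.le]; exact heq.symm
        exact mul_left_cancel h2
      have h2 := hA.kd.tf γ (n' - n) (by omega) h1
      exact hγ 1 0 (by rw [h2]; group)

end Pool.Agent.Helper33.QT
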